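import Pool.Agent.W528.HF.Stm

/-!
# The arithmetic of the exponents for `n = 1 + c + ... + c ^ (g - 1)`
-/

set_option autoImplicit false

namespace Pool.Agent.W999.HF.AG

open Finset

theorem key {x r : ℕ} (hr : 0 < r) : x % r + ((r - 1) * x) % r ≤ r := by
  have h1 : r ∣ x % r + ((r - 1) * x) % r := by
    rw [Nat.dvd_iff_mod_eq_zero, ← Nat.add_mod]
    have : x + (r - 1) * x = r * x := by
      obtain ⟨k, rfl⟩ : ∃ k, r = k + 1 := ⟨r - 1, by omega⟩
      rw [Nat.add_sub_cancel]; ring
    rw [this, Nat.mul_mod_right]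
  obtain ⟨k, hk⟩ := h1
  have h2 := Nat.mod_lt x hr
  have h3 := Nat.mod_lt ((r - 1) * x) hr
  have h4 : k < 2 := by
    by_contra hc
    push Not at hc
    have := Nat.mul_le_mul_left r hc
    omega
  have h5 : k ≤ 1 := by omega
  have := Nat.mul_le_mul_left r h5
  omega

theorem main : Pool.Agent.W528.HF.AG := by
  intro n r c F D g hc hn hr hrn hdiv hF m a ha hsum hD j s hj hjn hs
  have hg : 0 < g := by omega
  have hc2 := hc.two_le
  have hnpos : 0 < n := by
    rw [hn]
    exact Finset.sum_pos (fun i _ => Nat.pow_pos (by omega)) ⟨0, Finset.mem_range.2 hg⟩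
  have hcg : c ^ g ≡ 1 [MOD n] := by
    have h1 := geom_sum_mul_add (c - 1) g
    have h2 : c - 1 + 1 = c := by omega
    rw [h2, ← hn] at h1
    rw [← h1]
    have h3 : n * (c - 1) ≡ 0 [MOD n] := (Nat.modEq_zero_iff_dvd).2 (dvd_mul_right _ _)
    simpa using h3.add_right 1
  have hcgk : ∀ k e, c ^ (g * k + e) ≡ c ^ e [MOD n] := by
    intro k e
    rw [pow_add, pow_mul]
    have h1 := (hcg.pow k).mul_right (c ^ e)
    rwa [one_pow, one_mul] at h1
  have hFn : c ^ F ≡ 1 [MOD n] := by
    have h1 : n ∣ c ^ F - 1 := (dvd_mul_right n r).trans hdiv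
    exact ((Nat.modEq_iff_dvd' (Nat.one_le_pow _ _ (by omega))).2 h1).symm
  -- `g` divides `F`
  obtain ⟨u, hu⟩ : ∃ u, F = g * u := by
    set v := F % g with hv
    have hFv : F = g * (F / g) + v := (Nat.div_add_mod F g).symm
    have hvg : v < g := Nat.mod_lt _ hg
    have h1 : c ^ v ≡ 1 [MOD n] := by
      have h2 := hcgk (F / g) v
      rw [← hFv] at h2
      exact h2.symm.trans hFn
    rcases Nat.eq_zero_or_pos v with h0 | h0
    · exact ⟨F / g, by omega⟩
    · exfalso
      have h3 : c ^ v < n := by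
        have h4 : c ^ v + 1 ≤ n := by
          rw [hn]
          have h5 : ({0, v} : Finset ℕ) ⊆ range g := by
            intro x hx
            rw [Finset.mem_insert, Finset.mem_singleton] at hx
            rw [Finset.mem_range]
            omega
          have h6 := Finset.sum_le_sum_of_subset (f := fun i => c ^ i) h5
          rw [Finset.sum_pair (by omega), pow_zero] at h6
          omega
        omega
      have h7 : 1 < c ^ v := Nat.one_lt_pow (by omega) (by omega)
      have h8 : c ^ v % n = 1 % n := h1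
      rw [Nat.mod_eq_of_lt h3, Nat.mod_eq_of_lt (by omega)] at h8
      omega
  have hu0 : 0 < u := by
    rcases Nat.eq_zero_or_pos u with h | h
    · rw [h, mul_zero] at hu; omega
    · exact h
  -- inverse of `j`
  obtain ⟨ji, hji⟩ : ∃ ji : ℕ, ji * j ≡ 1 [MOD n] := by
    rcases Nat.lt_or_ge 1 n with h | h
    · obtain ⟨y, -, hy⟩ := Nat.exists_mul_mod_eq_one_of_coprime hj h
      refine ⟨y, ?_⟩
      show y * j % n = 1 % n
      rw [mul_comm, hy, Nat.mod_eq_of_lt h]
    · have h1 : n = 1 := by omega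
      exact ⟨0, by rw [h1]; exact Nat.modEq_one⟩
  -- the chosen multiplier
  have main' : ∀ t : ℕ, Nat.Coprime t r → ∃ j' : ℕ, j'.Coprime (n * r) ∧ j' * j ≡ 1 [MOD n] ∧
      j' ≡ t [MOD r] := by
    intro t ht
    obtain ⟨k, hk1, hk2⟩ := Nat.chineseRemainder hrn t ji
    have h1 : k * j ≡ 1 [MOD n] := (hk2.mul_right j).trans hji
    refine ⟨k, ?_, h1, hk1⟩
    refine Nat.Coprime.mul_right ?_ ?_
    · have h2 : Nat.Coprime (k * j) n := by
        unfold Nat.Coprime
        rw [h1.gcd_eq]
        exact Nat.gcd_one_left n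
      exact Nat.Coprime.coprime_mul_right h2
    · unfold Nat.Coprime
      rw [hk1.gcd_eq]
      exact ht
  -- blocks
  have hblock : ∀ (b u : ℕ), ∑ e ∈ range (g * u), (b * c ^ e) % n ≤ u * (b * n) := by
    intro b u
    induction u with
    | zero => simp
    | succ u ih =>
      rw [Nat.mul_succ, Finset.sum_range_add]
      have h1 : ∑ x ∈ range g, (b * c ^ (g * u + x)) % n ≤ b * n := by
        calc ∑ x ∈ range g, (b * c ^ (g * u + x)) % n
            ≤ ∑ x ∈ range g, b * c ^ x := Finset.sum_le_sum fun x _ => by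
              have h2 : (b * c ^ (g * u + x)) % n = (b * c ^ x) % n := (hcgk u x).mul_left b
              rw [h2]
              exact Nat.mod_le _ _
          _ = b * n := by rw [← Finset.mul_sum, ← hn]
      rw [Nat.succ_mul]
      omega
  have hfirst : ∀ j' : ℕ, j' * j ≡ 1 [MOD n] →
      D * ∑ i, ∑ e ∈ range F, (j' * (r * (j * a i % n)) * c ^ e) % (n * r)
        ≤ D * (r * (u * (n * ∑ i, a i))) := by
    intro j' hj'
    refine Nat.mul_le_mul_left D ?_
    have h1 : ∀ i, ∀ e, (j' * (r * (j * a i % n)) * c ^ e) % (n * r) = r * ((a i * c ^ e) % n) := by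
      intro i e
      have h2 : j' * (r * (j * a i % n)) * c ^ e = r * (j' * (j * a i % n) * c ^ e) := by ring
      rw [h2, mul_comm n r, Nat.mul_mod_mul_left]
      congr 1
      have h3 : j' * (j * a i % n) * c ^ e ≡ a i * c ^ e [MOD n] := by
        refine Nat.ModEq.mul_right _ ?_
        calc j' * (j * a i % n) ≡ j' * (j * a i) [MOD n] := (Nat.mod_modEq _ _).mul_left j'
          _ = (j' * j) * a i := by ring
          _ ≡ 1 * a i [MOD n] := hj'.mul_right _
          _ = a i := one_mul _
      exact h3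
    simp_rw [h1, ← Finset.mul_sum]
    refine Nat.mul_le_mul_left r ?_
    rw [Finset.mul_sum, Finset.mul_sum]
    refine Finset.sum_le_sum fun i _ => ?_
    have h4 := hblock (a i) u
    rw [← hu] at h4
    calc _ ≤ u * (a i * n) := h4
      _ = u * (n * a i) := by rw [mul_comm (a i) n]
  have hsec : ∀ (j' t : ℕ), j' ≡ t [MOD r] → ∑ e ∈ range F, (j' * (n * s) * c ^ e) % (n * r)
      = n * ∑ e ∈ range F, (t * (s * c ^ e)) % r := by
    intro j' t hj'
    rw [Finset.mul_sum]
    refine Finset.sum_congr rfl fun e _ => ?_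
    have h2 : j' * (n * s) * c ^ e = n * (j' * (s * c ^ e)) := by ring
    rw [h2, Nat.mul_mod_mul_left]
    congr 1
    exact hj'.mul_right _
  have hsumle : ∑ e ∈ range F, (1 * (s * c ^ e)) % r +
      ∑ e ∈ range F, ((r - 1) * (s * c ^ e)) % r ≤ F * r := by
    rw [← Finset.sum_add_distrib]
    calc ∑ e ∈ range F, ((1 * (s * c ^ e)) % r + ((r - 1) * (s * c ^ e)) % r)
        ≤ ∑ e ∈ range F, r := Finset.sum_le_sum fun e _ => by
          rw [one_mul]; exact key hr
      _ = F * r := by simp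
  have hfin : ∀ A S : ℕ, A ≤ D * (r * (u * (n * ∑ i, a i))) → 2 * S ≤ F * r →
      A + n * S < F * (n * r) := by
    intro A S hA hS
    have h1 : 2 * (D * (r * (u * (n * ∑ i, a i)))) = r * u * n * (2 * D * ∑ i, a i) := by ring
    have h2 : r * u * n * (2 * D * ∑ i, a i) < r * u * n * g :=
      Nat.mul_lt_mul_of_pos_left hsum (Nat.mul_pos (Nat.mul_pos hr hu0) hnpos)
    have h3 : n * (2 * S) ≤ n * (F * r) := Nat.mul_le_mul_left n hS
    have h4 : r * u * n * g = F * (n * r) := by rw [hu]; ring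
    have h5 : n * (F * r) = F * (n * r) := by ring
    have h6 : n * (2 * S) = 2 * (n * S) := by ring
    omega
  by_cases h : 2 * ∑ e ∈ range F, (1 * (s * c ^ e)) % r ≤ F * r
  · obtain ⟨j', h1, h2, h3⟩ := main' 1 (Nat.coprime_one_left r)
    refine ⟨j', h1, ?_⟩
    rw [hsec j' 1 h3]
    exact hfin _ _ (hfirst j' h2) h
  · have hcop : Nat.Coprime (r - 1) r := by
      have : Nat.Coprime (r - 1) (r - 1 + 1) := by simp
      rwa [Nat.sub_add_cancel hr] at this
    obtain ⟨j', h1, h2, h3⟩ := main' (r - 1) hcop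
    refine ⟨j', h1, ?_⟩
    rw [hsec j' (r - 1) h3]
    exact hfin _ _ (hfirst j' h2) (by omega)

end Pool.Agent.W999.HF.AG
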